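import Pool.Agent.Helper29.ZR.Props
import Pool.Agent.Helper10.RC.Homs

/-!
# MP_b55b7c_an, packet ZR-AsrF: comparison in the fixed point algebra gives approximate stable
rank one
-/

open scoped ENNReal NNReal InnerProductSpace ComplexOrder
open Filter Topology

attribute [-instance] CStarMatrix.instAlgebra CStarMatrix.instModule CStarMatrix.instSMul
  CStarMatrix.instMulAction CStarMatrix.instDistribMulAction

noncomputable section
namespace RC
universe u
namespace H8ZR

section
variable {A : Type u} [CStarAlgebra A] [PartialOrder A] [StarOrderedRing A]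
variable {B : Type u} [CStarAlgebra B] [PartialOrder B] [StarOrderedRing B]

theorem nonneg_of (j : B →⋆ₐ[ℂ] A) (hj : Function.Injective j) (x : B) (h : 0 ≤ j x) : 0 ≤ x := by
  have hsa : IsSelfAdjoint x := by
    have h1 : star (j x) = j x := h.isSelfAdjoint
    rw [← map_star] at h1
    exact hj h1
  have h3 : j (cut x 0) = j x := by
    unfold cut
    rw [starHom_cfc j _ (by fun_prop) x hsa]
    exact cut_zero h
  have h4 : cut x 0 = x := hj h3
  rw [← h4]
  exact cut_nonneg x 0

/-- Without tracial states approximate stable rank one is trivial. -/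
theorem asr_of_isEmpty (h : IsEmpty (TState A)) : ASR A := by
  intro x η θ hη hθ
  refine ⟨x, 1, ?_, zero_le_one, ⟨0, 1, by rw [zero_mul, zero_add, mul_one]⟩, ?_⟩
  · rw [sub_self, norm_zero]
    exact hη.le
  · intro φ
    exact (h.false φ).elim

end

/-- Tracial comparison in the fixed point algebra gives approximate stable rank one. -/
theorem asrFP (hSB : SBP.{u}) (hMp : MpP.{u}) (hTF : TFP.{u}) (hE : SmallEP.{u})
    (hR : RoomBP.{u}) (hPG : PCGenP.{u}) (hPC : AsrPCP.{u}) : AsrFP.{u} := by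
  intro A B _ _ _ _ _ _ G _ _ α j hα hj hS hN hTC
  rcases isEmpty_or_nonempty (TState A) with hemp | hne
  · exact asr_of_isEmpty hemp
  refine hPC A fun θ hθ => ?_
  obtain ⟨m, hm⟩ := hSB A B G α j hα hj hS
  obtain ⟨n, c, L, hc, hL, hcL, hcθ⟩ := hTF A B G α j hα hj hS hN hne θ hθ
  have hG : (0 : ℝ) ≤ Fintype.card G := Nat.cast_nonneg _
  have hm0 : (0 : ℝ) ≤ m := Nat.cast_nonneg _
  obtain ⟨eA, J, r, heA, hinv, hsum, hdim⟩ := hE A G α hα hS hN hne
    (1 / (4 * L * ((m : ℝ) + 1) * ((Fintype.card G : ℝ) + 1))) (by positivity)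
  obtain ⟨e, he⟩ := (hj.2 eA).1 hinv
  have he0 : 0 ≤ e := nonneg_of j hj.1 e (by rw [he]; exact heA)
  have hroom : ∀ θ' : ℝ, 0 < θ' → RoomL (mp j c) (j e) θ' := by
    refine hR A B G α j hα hj (Fin n) c e m (1 / (4 * L)) hc he0 hm0 (by positivity)
      (hTC _ (by positivity)) ?_
    intro ω
    obtain ⟨σ, hσ⟩ := hm ω
    refine ⟨σ, ?_, fun κ _ _ x hx => (hσ κ x hx).2⟩
    have h1 := hdim σ
    have h2 := hcL ω
    have h3 : (m : ℝ) * ((Fintype.card G : ℝ) + 1) * σ.dim (one1 (j e)) ≤ 1 / (4 * L) := by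
      rw [he]
      calc (m : ℝ) * ((Fintype.card G : ℝ) + 1) * σ.dim (one1 eA)
          ≤ (m : ℝ) * ((Fintype.card G : ℝ) + 1) *
            (1 / (4 * L * ((m : ℝ) + 1) * ((Fintype.card G : ℝ) + 1))) :=
            mul_le_mul_of_nonneg_left h1 (by positivity)
        _ = (m : ℝ) / ((m : ℝ) + 1) * (1 / (4 * L)) := by
            field_simp
        _ ≤ 1 * (1 / (4 * L)) := by
            refine mul_le_mul_of_nonneg_right ?_ (by positivity)
            rw [div_le_one (by positivity)]
            linarith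
        _ = 1 / (4 * L) := one_mul _
    have h4 : 1 / L ≤ ω.dim c := by
      rw [div_le_iff₀ hL]
      linarith
    have h5 : 1 / (4 * L) + 1 / (4 * L) < 1 / L := by
      have h6 : 1 / (4 * L) + 1 / (4 * L) = 1 / 2 * (1 / L) := by
        field_simp
        norm_num
      have h7 : 0 < 1 / L := by positivity
      rw [h6]
      linarith
    linarith
  refine ⟨Fin n, inferInstance, inferInstance, mp j c,
    (hMp A B j hj.1 (Fin n) (Fin n) c c).1.1 hc, fun _ σ _ => hcθ σ, ?_⟩
  refine hPG A (Fin n) (mp j c) (j e) J r ((hMp A B j hj.1 (Fin n) (Fin n) c c).1.1 hc) ?_ ?_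
    hroom
  · rw [he]
    exact heA
  · rw [he]
    exact hsum

end H8ZR
end RC
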